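import Pool.Agent.Lib.MP_a147dc_co.Part

/-! Point sets on a grid of polynomial size with no four points on a line have general position
subsets of size `n ^ (1/2 + ε)` and split into at most `n ^ (1/2 - ε)` such subsets. -/

namespace Pool.Agent.Lib.MP_a147dc_co.Old.PolyGrid

open Finset Pool.Agent.Lib.MP_a147dc_co

lemma det_of_collinear {p q r : EuclideanSpace ℝ (Fin 2)}
    (h : Collinear ℝ ({p, q, r} : Set (EuclideanSpace ℝ (Fin 2)))) :
    (q 0 - p 0) * (r 1 - p 1) - (q 1 - p 1) * (r 0 - p 0) = 0 := by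
  obtain ⟨v, hv⟩ := (collinear_iff_of_mem (p₀ := p) (by simp)).1 h
  obtain ⟨a, ha⟩ := hv q (by simp)
  obtain ⟨b, hb⟩ := hv r (by simp)
  rw [ha, hb]
  simp only [vadd_eq_add, PiLp.add_apply, PiLp.smul_apply, smul_eq_mul]
  ring

lemma exists_smul_of_det {p q r : EuclideanSpace ℝ (Fin 2)} (hpq : p ≠ q)
    (h : (q 0 - p 0) * (r 1 - p 1) - (q 1 - p 1) * (r 0 - p 0) = 0) :
    ∃ a : ℝ, r = a • (q - p) +ᵥ p := by
  by_cases h0 : q 0 - p 0 = 0
  · have h1 : q 1 - p 1 ≠ 0 := by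
      intro h1; apply hpq; ext i; fin_cases i
      · simpa using (sub_eq_zero.1 h0).symm
      · simpa using (sub_eq_zero.1 h1).symm
    refine ⟨(r 1 - p 1) / (q 1 - p 1), ?_⟩
    ext i; fin_cases i
    · simp only [vadd_eq_add, PiLp.add_apply, PiLp.smul_apply, PiLp.sub_apply, smul_eq_mul,
        Fin.zero_eta]
      field_simp; linear_combination -h
    · simp only [vadd_eq_add, PiLp.add_apply, PiLp.smul_apply, PiLp.sub_apply, smul_eq_mul,
        Fin.mk_one]
      field_simp; ring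
  · refine ⟨(r 0 - p 0) / (q 0 - p 0), ?_⟩
    ext i; fin_cases i
    · simp only [vadd_eq_add, PiLp.add_apply, PiLp.smul_apply, PiLp.sub_apply, smul_eq_mul,
        Fin.zero_eta]
      field_simp; ring
    · simp only [vadd_eq_add, PiLp.add_apply, PiLp.smul_apply, PiLp.sub_apply, smul_eq_mul,
        Fin.mk_one]
      field_simp; linear_combination h

theorem result (C : ℕ) : ∃ ε : ℝ, 0 < ε ∧ ∃ n₀ : ℕ,
    ∀ S : Finset (EuclideanSpace ℝ (Fin 2)), n₀ ≤ S.card →
      (∀ p ∈ S, ∀ i, ∃ k : ℤ, p i = k ∧ |k| ≤ (S.card : ℤ) ^ C) →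
      (∀ T ⊆ S, T.card = 4 → ¬ Collinear ℝ (T : Set (EuclideanSpace ℝ (Fin 2)))) →
      (∃ G ⊆ S, (S.card : ℝ) ^ (1 / 2 + ε) ≤ G.card ∧
        ∀ T ⊆ G, T.card = 3 → ¬ Collinear ℝ (T : Set (EuclideanSpace ℝ (Fin 2)))) ∧
      (∃ k : ℕ, (k : ℝ) ≤ (S.card : ℝ) ^ (1 / 2 - ε) ∧
        ∃ col : EuclideanSpace ℝ (Fin 2) → ℕ, (∀ p ∈ S, col p < k) ∧
          ∀ T ⊆ S, T.card = 3 → (∀ p ∈ T, ∀ q ∈ T, col p = col q) →
            ¬ Collinear ℝ (T : Set (EuclideanSpace ℝ (Fin 2)))) := by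
  classical
  obtain ⟨ε, hε, n₀, H⟩ := main_both (C + 1)
  refine ⟨ε, hε, n₀ + 2, fun S hn hint h4 => ?_⟩
  let π : EuclideanSpace ℝ (Fin 2) → ℤ × ℤ :=
    fun p => (⌊p 0⌋ + (S.card : ℤ) ^ C, ⌊p 1⌋ + (S.card : ℤ) ^ C)
  have hfl : ∀ p ∈ S, ∀ i, ((⌊p i⌋ : ℤ) : ℝ) = p i := by
    intro p hp i
    obtain ⟨k, hk, -⟩ := hint p hp i
    rw [hk, Int.floor_intCast]
  have hinj : Set.InjOn π S := by
    intro p hp q hq h
    simp only [π, Prod.mk.injEq, add_left_inj] at h
    ext i; fin_cases i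
    · simpa using (hfl p hp 0).symm.trans ((congrArg _ h.1).trans (hfl q hq 0))
    · simpa using (hfl p hp 1).symm.trans ((congrArg _ h.2).trans (hfl q hq 1))
  have hdet : ∀ p ∈ S, ∀ q ∈ S, ∀ r ∈ S, ((det3 (π p) (π q) (π r) : ℤ) : ℝ) =
      (q 0 - p 0) * (r 1 - p 1) - (q 1 - p 1) * (r 0 - p 0) := by
    intro p hp q hq r hr
    simp only [det3, π]
    push_cast
    rw [hfl p hp, hfl p hp, hfl q hq, hfl q hq, hfl r hr, hfl r hr]; ring
  have hcard : (S.image π).card = S.card := card_image_of_injOn hinj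
  have key : ∀ p ∈ S, ∀ q ∈ S, ∀ r ∈ S, det3 (π p) (π q) (π r) ≠ 0 →
      ¬ Collinear ℝ ((({p, q, r} : Finset (EuclideanSpace ℝ (Fin 2)))) :
        Set (EuclideanSpace ℝ (Fin 2))) := by
    intro p hp q hq r hr hd hc
    rw [coe_insert, coe_insert, coe_singleton] at hc
    apply hd
    have := (hdet p hp q hq r hr).trans (det_of_collinear hc)
    exact_mod_cast this
  obtain ⟨⟨G, hG, hGP, hGc⟩, k, hk, col, c1, c2⟩ := H (S.image π) (2 * S.card ^ C) (by omega)
    (by rw [hcard, pow_succ, mul_comm]; exact Nat.mul_le_mul_left _ (by omega))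
    (by
      intro x hx
      obtain ⟨p, hp, rfl⟩ := mem_image.1 hx
      obtain ⟨a, ha, ha'⟩ := hint p hp 0
      obtain ⟨b, hb, hb'⟩ := hint p hp 1
      simp only [π, ha, hb, Int.floor_intCast]
      rw [abs_le] at ha' hb'
      push_cast
      refine ⟨?_, ?_, ?_, ?_⟩ <;> linarith [ha'.1, ha'.2, hb'.1, hb'.2])
    (by
      intro x hx y hy z hz w hw xy xz xw yz yw zw d1 d2
      obtain ⟨p, hp, rfl⟩ := mem_image.1 hx
      obtain ⟨q, hq, rfl⟩ := mem_image.1 hy
      obtain ⟨r, hr, rfl⟩ := mem_image.1 hz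
      obtain ⟨s, hs, rfl⟩ := mem_image.1 hw
      have pq : p ≠ q := fun h => xy (congrArg π h)
      have pr : p ≠ r := fun h => xz (congrArg π h)
      have ps : p ≠ s := fun h => xw (congrArg π h)
      have qr : q ≠ r := fun h => yz (congrArg π h)
      have qs : q ≠ s := fun h => yw (congrArg π h)
      have rs : r ≠ s := fun h => zw (congrArg π h)
      apply h4 {p, q, r, s}
      · intro u hu
        simp only [mem_insert, mem_singleton] at hu
        rcases hu with rfl | rfl | rfl | rfl <;> assumption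
      · rw [card_insert_of_notMem (by simp [pq, pr, ps]), card_insert_of_notMem (by simp [qr, qs]),
          card_pair rs]
      · rw [collinear_iff_of_mem (p₀ := p) (by simp)]
        refine ⟨q - p, fun u hu => ?_⟩
        simp only [coe_insert, coe_singleton, Set.mem_insert_iff, Set.mem_singleton_iff] at hu
        rcases hu with rfl | rfl | rfl | rfl
        · exact ⟨0, by simp⟩
        · exact ⟨1, by simp⟩
        · exact exists_smul_of_det pq (by rw [← hdet _ hp _ hq _ hr, d1]; simp)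
        · exact exists_smul_of_det pq (by rw [← hdet _ hp _ hq _ hs, d2]; simp))
  rw [hcard] at hGc hk
  refine ⟨⟨S.filter fun p => π p ∈ G, filter_subset _ _, hGc.trans ?_, ?_⟩,
    k, hk, col ∘ π, fun p hp => c1 _ (mem_image_of_mem _ hp), ?_⟩
  · have : G ⊆ (S.filter fun p => π p ∈ G).image π := by
      intro x hx
      obtain ⟨p, hp, rfl⟩ := mem_image.1 (hG hx)
      exact mem_image_of_mem _ (mem_filter.2 ⟨hp, hx⟩)
    exact_mod_cast (card_le_card this).trans card_image_le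
  · intro T hT h3
    obtain ⟨p, q, r, pq, pr, qr, rfl⟩ := card_eq_three.1 h3
    have hp := mem_filter.1 (hT (by simp : p ∈ ({p, q, r} : Finset _)))
    have hq := mem_filter.1 (hT (by simp : q ∈ ({p, q, r} : Finset _)))
    have hr := mem_filter.1 (hT (by simp : r ∈ ({p, q, r} : Finset _)))
    exact key p hp.1 q hq.1 r hr.1 (hGP _ hp.2 _ hq.2 _ hr.2 (fun h => pq (hinj hp.1 hq.1 h))
      (fun h => pr (hinj hp.1 hr.1 h)) (fun h => qr (hinj hq.1 hr.1 h)))
  · intro T hT h3 hcol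
    obtain ⟨p, q, r, pq, pr, qr, rfl⟩ := card_eq_three.1 h3
    have hp := hT (by simp : p ∈ ({p, q, r} : Finset _))
    have hq := hT (by simp : q ∈ ({p, q, r} : Finset _))
    have hr := hT (by simp : r ∈ ({p, q, r} : Finset _))
    exact key p hp q hq r hr (c2 _ (mem_image_of_mem _ hp) _ (mem_image_of_mem _ hq) _
      (mem_image_of_mem _ hr) (fun h => pq (hinj hp hq h)) (fun h => pr (hinj hp hr h))
      (fun h => qr (hinj hq hr h)) (hcol p (by simp) q (by simp)) (hcol p (by simp) r (by simp)))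

end Pool.Agent.Lib.MP_a147dc_co.Old.PolyGrid
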